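import Pool.Agent.H221R3.MD.StmtsP

set_option autoImplicit false

namespace Pool.Agent.H994R4.MD

open Pool.Agent.H221R3.MD Complex

/-- the function `Φ` -/
noncomputable def Phi (Q z : ℂ) : ℝ :=
  27 - 18 * ‖z‖ ^ 2 + 8 * (z ^ 3 * (starRingEnd ℂ) Q).re - ‖z‖ ^ 4

theorem Phi_pert (Q z w : ℂ) (hQ : ‖Q‖ = 1) (hz : ‖z‖ ≤ 4) (hw : ‖w‖ ≤ 4) :
    Phi Q z - Phi Q w ≤ 784 * ‖z - w‖ := by
  have h1 : |‖z‖ - ‖w‖| ≤ ‖z - w‖ := abs_norm_sub_norm_le z w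
  have hz0 := norm_nonneg z
  have hw0 := norm_nonneg w
  have hd0 := norm_nonneg (z - w)
  have h3 : ((z ^ 3 - w ^ 3) * (starRingEnd ℂ) Q).re ≤ 48 * ‖z - w‖ := by
    have e : z ^ 3 - w ^ 3 = (z - w) * (z ^ 2 + z * w + w ^ 2) := by ring
    have hn : ‖z ^ 2 + z * w + w ^ 2‖ ≤ 48 := by
      calc ‖z ^ 2 + z * w + w ^ 2‖ ≤ ‖z ^ 2‖ + ‖z * w‖ + ‖w ^ 2‖ := norm_add₃_le
        _ = ‖z‖ ^ 2 + ‖z‖ * ‖w‖ + ‖w‖ ^ 2 := by rw [norm_pow, norm_mul, norm_pow]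
        _ ≤ 48 := by nlinarith
    calc ((z ^ 3 - w ^ 3) * (starRingEnd ℂ) Q).re
        ≤ ‖(z ^ 3 - w ^ 3) * (starRingEnd ℂ) Q‖ := Complex.re_le_norm _
      _ = ‖z - w‖ * ‖z ^ 2 + z * w + w ^ 2‖ := by
          rw [norm_mul, e, norm_mul, RCLike.norm_conj, hQ, mul_one]
      _ ≤ ‖z - w‖ * 48 := mul_le_mul_of_nonneg_left hn hd0
      _ = 48 * ‖z - w‖ := by ring
  have h3' : (z ^ 3 * (starRingEnd ℂ) Q).re - (w ^ 3 * (starRingEnd ℂ) Q).re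
      ≤ 48 * ‖z - w‖ := by
    rw [← Complex.sub_re, ← sub_mul]
    exact h3
  have h2 : ‖w‖ - ‖z‖ ≤ ‖z - w‖ := by
    have := (abs_le.1 h1).1
    linarith
  have h4 : ‖w‖ ^ 2 - ‖z‖ ^ 2 ≤ 8 * ‖z - w‖ := by
    have e : ‖w‖ ^ 2 - ‖z‖ ^ 2 = (‖w‖ - ‖z‖) * (‖w‖ + ‖z‖) := by ring
    rw [e]
    calc (‖w‖ - ‖z‖) * (‖w‖ + ‖z‖) ≤ ‖z - w‖ * (‖w‖ + ‖z‖) :=
          mul_le_mul_of_nonneg_right h2 (by linarith)
      _ ≤ ‖z - w‖ * 8 := mul_le_mul_of_nonneg_left (by linarith) hd0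
      _ = 8 * ‖z - w‖ := by ring
  have h5 : ‖w‖ ^ 4 - ‖z‖ ^ 4 ≤ 256 * ‖z - w‖ := by
    have e : ‖w‖ ^ 4 - ‖z‖ ^ 4 = (‖w‖ ^ 2 - ‖z‖ ^ 2) * (‖w‖ ^ 2 + ‖z‖ ^ 2) := by ring
    rw [e]
    have hs : ‖w‖ ^ 2 + ‖z‖ ^ 2 ≤ 32 := by nlinarith
    calc (‖w‖ ^ 2 - ‖z‖ ^ 2) * (‖w‖ ^ 2 + ‖z‖ ^ 2)
        ≤ (8 * ‖z - w‖) * (‖w‖ ^ 2 + ‖z‖ ^ 2) :=
          mul_le_mul_of_nonneg_right h4 (by positivity)
      _ ≤ (8 * ‖z - w‖) * 32 := mul_le_mul_of_nonneg_left hs (by positivity)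
      _ = 256 * ‖z - w‖ := by ring
  unfold Phi
  linarith

theorem Phi_at (r φ : ℝ) :
    Phi (Complex.exp (φ * I) ^ 2) (-1 - r * Complex.exp (φ * I)) = - DP r (Real.cos φ) := by
  have hE : Complex.exp (φ * I) = (Real.cos φ : ℂ) + (Real.sin φ : ℂ) * I := by
    rw [Complex.exp_mul_I, ← Complex.ofReal_cos, ← Complex.ofReal_sin]
  have hcs : Real.sin φ ^ 2 = 1 - Real.cos φ ^ 2 := by
    have := Real.sin_sq_add_cos_sq φ
    linarith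
  set C := Real.cos φ with hC
  set S := Real.sin φ with hS
  have hnorm : ‖(-1 - (r : ℂ) * ((C : ℂ) + (S : ℂ) * I))‖ ^ 2 = 1 + 2 * r * C + r ^ 2 := by
    rw [Complex.sq_norm, Complex.normSq_apply]
    simp
    nlinarith [hcs]
  have hre : ((-1 - (r : ℂ) * ((C : ℂ) + (S : ℂ) * I)) ^ 3 *
      (starRingEnd ℂ) (((C : ℂ) + (S : ℂ) * I) ^ 2)).re
      = -(2 * C ^ 2 - 1 + 3 * r * C + 3 * r ^ 2 + r ^ 3 * C) := by
    have hI : (starRingEnd ℂ) (((C : ℂ) + (S : ℂ) * I) ^ 2) = ((C : ℂ) - (S : ℂ) * I) ^ 2 := by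
      rw [map_pow, map_add, map_mul, Complex.conj_ofReal, Complex.conj_ofReal, Complex.conj_I]
      ring
    have hSc : (S : ℂ) ^ 2 = 1 - (C : ℂ) ^ 2 := by
      have := congrArg (fun t : ℝ => (t : ℂ)) hcs
      push_cast at this
      exact this
    have hq : ((C : ℂ) + (S : ℂ) * I) * ((C : ℂ) - (S : ℂ) * I) = 1 := by
      have : ((C : ℂ) + (S : ℂ) * I) * ((C : ℂ) - (S : ℂ) * I) = (C : ℂ) ^ 2 - (S : ℂ) ^ 2 * I ^ 2 := by
        ring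
      rw [this, Complex.I_sq, hSc]
      ring
    have key : (-1 - (r : ℂ) * ((C : ℂ) + (S : ℂ) * I)) ^ 3 * ((C : ℂ) - (S : ℂ) * I) ^ 2
        = -(((C : ℂ) - (S : ℂ) * I) ^ 2 + 3 * r * ((C : ℂ) - (S : ℂ) * I) + 3 * r ^ 2
          + r ^ 3 * ((C : ℂ) + (S : ℂ) * I)) := by
      generalize hg : (C : ℂ) + (S : ℂ) * I = g at hq ⊢
      generalize hk : (C : ℂ) - (S : ℂ) * I = k at hq ⊢
      linear_combination (-3 * r * k - 3 * r ^ 2 * (g * k + 1) - r ^ 3 * g * (g * k + 1)) * hq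
    rw [hI, key]
    have e2 : ((C : ℂ) - (S : ℂ) * I) ^ 2 = ((2 * C ^ 2 - 1 : ℝ) : ℂ) + ((-2 * C * S : ℝ) : ℂ) * I := by
      have : ((C : ℂ) - (S : ℂ) * I) ^ 2 = (C : ℂ) ^ 2 + (S : ℂ) ^ 2 * I ^ 2 - 2 * C * S * I := by ring
      rw [this, Complex.I_sq, hSc]
      push_cast
      ring
    rw [e2]
    have e3 : -((((2 * C ^ 2 - 1 : ℝ) : ℂ) + ((-2 * C * S : ℝ) : ℂ) * I)
        + 3 * (r : ℂ) * ((C : ℂ) - (S : ℂ) * I) + 3 * (r : ℂ) ^ 2 + (r : ℂ) ^ 3 * ((C : ℂ) + (S : ℂ) * I))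
        = ((-(2 * C ^ 2 - 1 + 3 * r * C + 3 * r ^ 2 + r ^ 3 * C) : ℝ) : ℂ)
          + ((-(-2 * C * S - 3 * r * S + r ^ 3 * S) : ℝ) : ℂ) * I := by
      push_cast
      ring
    rw [e3, Complex.add_re, Complex.ofReal_re, Complex.re_ofReal_mul, Complex.I_re]
    ring
  unfold Phi DP
  rw [hE, hre]
  have h4 : ‖(-1 - (r : ℂ) * ((C : ℂ) + (S : ℂ) * I))‖ ^ 4 = (1 + 2 * r * C + r ^ 2) ^ 2 := by
    rw [← hnorm]
    ring
  rw [h4, hnorm]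
  ring

theorem taskP4 : TaskP4 := by
  intro hP1 hP2 hP3 a1 a2 a3 b1 b2 b3 φ r ha hb hr
  have hc1 := Real.cos_le_one (a1 - φ)
  have hc2 := Real.cos_le_one (a2 - φ)
  have hc3 := Real.cos_le_one (a3 - φ)
  have hd1 := Real.neg_one_le_cos (a1 - φ)
  have hd2 := Real.neg_one_le_cos (a2 - φ)
  have hd3 := Real.neg_one_le_cos (a3 - φ)
  have hr6 : r ≤ 6 := by linarith
  have hr6' : -6 ≤ r := by linarith
  have hC1 := Real.cos_le_one φ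
  have hC2 := Real.neg_one_le_cos φ
  set A := 1 + r * Real.cos φ + (Real.cos b1 + Real.cos b2 + Real.cos b3) with hA
  set B := r * Real.sin φ + (Real.sin b1 + Real.sin b2 + Real.sin b3) with hB
  have hAB : 0 ≤ A ^ 2 + B ^ 2 := by positivity
  have hr2 : r ^ 2 ≤ 36 := by nlinarith
  have hrC : r * Real.cos φ ≤ 6 := by
    have h1 : |r * Real.cos φ| ≤ 6 * 1 := by
      rw [abs_mul]
      exact mul_le_mul (abs_le.2 ⟨by linarith, hr6⟩) (abs_le.2 ⟨hC2, hC1⟩) (abs_nonneg _) (by norm_num)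
    have := le_abs_self (r * Real.cos φ)
    linarith
  by_cases h : (1 : ℝ) / 10 ^ 12 ≤ A ^ 2 + B ^ 2
  · have h1 : (10 : ℝ) ^ 14 * (1 / 10 ^ 12) ≤ 10 ^ 14 * (A ^ 2 + B ^ 2) :=
      mul_le_mul_of_nonneg_left h (by positivity)
    have h2 : (10 : ℝ) ^ 14 * (1 / 10 ^ 12) = 100 := by norm_num
    rw [h2] at h1
    have h3 : (31 / 10) * r * Real.cos φ = (31 / 10) * (r * Real.cos φ) := by ring
    rw [h3]
    linarith
  · push Not at h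
    set U : ℂ := Complex.exp (b1 * I) + Complex.exp (b2 * I) + Complex.exp (b3 * I) with hU
    set w : ℂ := -1 - r * Complex.exp (φ * I) with hw
    have hn1 := Complex.norm_exp_ofReal_mul_I b1
    have hn2 := Complex.norm_exp_ofReal_mul_I b2
    have hn3 := Complex.norm_exp_ofReal_mul_I b3
    have hnq := Complex.norm_exp_ofReal_mul_I φ
    have hUn : ‖U‖ ≤ 3 := by
      calc ‖U‖ ≤ ‖Complex.exp (b1 * I)‖ + ‖Complex.exp (b2 * I)‖ + ‖Complex.exp (b3 * I)‖ :=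
            norm_add₃_le
        _ = 3 := by rw [hn1, hn2, hn3]; norm_num
    have hv2 : ‖U - w‖ ^ 2 = A ^ 2 + B ^ 2 := by
      have hre : (U - w).re = A := by
        rw [hU, hw, hA]
        simp only [Complex.sub_re, Complex.add_re, Complex.exp_ofReal_mul_I_re, Complex.neg_re,
          Complex.one_re, Complex.re_ofReal_mul]
        ring
      have him : (U - w).im = B := by
        rw [hU, hw, hB]
        simp only [Complex.sub_im, Complex.add_im, Complex.exp_ofReal_mul_I_im, Complex.neg_im,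
          Complex.one_im, Complex.im_ofReal_mul]
        ring
      rw [Complex.sq_norm, Complex.normSq_apply, hre, him]
      ring
    have hv : ‖U - w‖ ≤ 1 / 10 ^ 6 := by
      apply le_of_sq_le_sq _ (by positivity)
      rw [hv2]
      have : ((1 : ℝ) / 10 ^ 6) ^ 2 = 1 / 10 ^ 12 := by norm_num
      rw [this]
      exact h.le
    have hwn : ‖w‖ ≤ 4 := by
      have h1 : ‖w‖ ≤ ‖U‖ + ‖U - w‖ := by
        have e : w = U - (U - w) := by ring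
        calc ‖w‖ = ‖U - (U - w)‖ := by rw [← e]
          _ ≤ ‖U‖ + ‖U - w‖ := norm_sub_le _ _
      have h2 : (1 : ℝ) / 10 ^ 6 ≤ 1 := by norm_num
      linarith
    have hprod : Complex.exp (b1 * I) * Complex.exp (b2 * I) * Complex.exp (b3 * I)
        = Complex.exp (φ * I) ^ 2 := by
      rw [← Complex.exp_add, ← Complex.exp_add, ← Complex.exp_nat_mul]
      congr 1
      have : (b1 : ℂ) + b2 + b3 = 2 * φ := by exact_mod_cast hb
      push_cast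
      linear_combination I * this
    have hPhiU : 0 ≤ Phi (Complex.exp (φ * I) ^ 2) U := by
      have := hP1 _ _ _ hn1 hn2 hn3
      rw [hprod, ← hU] at this
      unfold Phi
      exact this
    have hQ1 : ‖Complex.exp (φ * I) ^ 2‖ = 1 := by rw [norm_pow, hnq]; norm_num
    have hpert := Phi_pert (Complex.exp (φ * I) ^ 2) U w hQ1 (by linarith) hwn
    rw [hw, Phi_at, ← hw] at hpert
    have hDP : DP r (Real.cos φ) ≤ 1 / 1000 := by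
      have h1 : 784 * ‖U - w‖ ≤ 784 * (1 / 10 ^ 6) := mul_le_mul_of_nonneg_left hv (by norm_num)
      have h2 : (784 : ℝ) * (1 / 10 ^ 6) ≤ 1 / 1000 := by norm_num
      linarith
    have h3 := hP3 (a1 - φ) (a2 - φ) (a3 - φ) φ (by linarith)
    rw [← hr] at h3
    have hfin := hP2 r (Real.cos φ) hC2 hC1 hr6' hr6 hDP h3.1 h3.2
    have hpos : 0 ≤ (10 : ℝ) ^ 14 * (A ^ 2 + B ^ 2) := by positivity
    linarith

end Pool.Agent.H994R4.MD
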